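import Pool.Agent.Q322.RF.Grp
import Pool.Agent.Q322.RF.Rng
/-!
# A residually finite, residually soluble group that is not residually finite-soluble

Let `R` be the localization of `ℤ[X]` at the polynomials `s_i = (i + 1) - i X ^ (M i)`, `i ≥ 0`, for a
rapidly growing sequence `M`, and let `Γ` be the group generated by the elementary three by three
matrices with entries in `X R`.

* Each `d ≥ 1` is invertible modulo `X` (as `s_(d-1)` is a unit), so `X R = d X R + X² R`. As
  `e_ij (X · X r)` is a commutator of elements of `Γ`, every homomorphism from `Γ` to a finite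
  commutative group is trivial, hence so is every finite soluble quotient of `Γ`.
* The elements of `Γ` are congruent to `1` modulo `X`, and no nonzero element of `R` is divisible by
  all powers of `X`. So `Γ` is residually nilpotent (with infinite quotients).
* There are primes `q_j` with `q_j - 1 ∣ M i` for `i > j` and `q_j` larger than `∑ M i` over
  `i ≤ j`. So for each nonzero `f` there are `j` and `a` in the field with `q_j` elements with
  `f(a) ≠ 0` and `s_i (a) ≠ 0` for all `i`: `R` is residually finite, hence so is `Γ`.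
-/

set_option autoImplicit false

namespace Pool.Agent.Results.MP_92b5af_al.NoFiniteSolubleQuotients

open Pool.Agent.Q322.RF

/-- residually finite -/
def ResFinite (Γ : Type) [Group Γ] : Prop :=
  ∀ g : Γ, g ≠ 1 → ∃ (N : Subgroup Γ) (_ : N.Normal), g ∉ N ∧ Finite (Γ ⧸ N)

/-- residually soluble -/
def ResSoluble (Γ : Type) [Group Γ] : Prop :=
  ∀ g : Γ, g ≠ 1 → ∃ (N : Subgroup Γ) (_ : N.Normal), g ∉ N ∧ Group.IsSolvable (Γ ⧸ N)

/-- residually nilpotent -/
def ResNilpotent (Γ : Type) [Group Γ] : Prop :=
  ∀ g : Γ, g ≠ 1 → ∃ (N : Subgroup Γ) (_ : N.Normal), g ∉ N ∧ Group.IsNilpotent (Γ ⧸ N)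

/-- residually finite-soluble -/
def ResFiniteSoluble (Γ : Type) [Group Γ] : Prop :=
  ∀ g : Γ, g ≠ 1 → ∃ (N : Subgroup Γ) (_ : N.Normal), g ∉ N ∧ Finite (Γ ⧸ N) ∧
    Group.IsSolvable (Γ ⧸ N)

theorem countable_Rg : Countable Rg := by
  have h1 : Countable (Polynomial ℤ) := by
    have := Polynomial.cardinalMk_le_max (R := ℤ)
    rw [← Cardinal.mk_le_aleph0_iff]
    refine this.trans ?_
    simp
  have h2 : Function.Surjective fun z : Polynomial ℤ × S =>
      IsLocalization.mk' Rg z.1 z.2 := by
    intro r
    obtain ⟨f, y, h⟩ := IsLocalization.exists_mk'_eq S r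
    exact ⟨(f, y), h⟩
  exact h2.countable

theorem result : ∃ (Γ : Type) (_ : Group Γ), Countable Γ ∧ ResFinite Γ ∧ ResSoluble Γ ∧
    ResNilpotent Γ ∧ ¬ ResFiniteSoluble Γ ∧
    ∀ (N : Subgroup Γ) (_ : N.Normal), Finite (Γ ⧸ N) → Group.IsSolvable (Γ ⧸ N) → N = ⊤ := by
  have hnil : ResNilpotent (Elem xx) := fun g hg => residually_nilpotent Rg_sep g hg
  have htriv : ∀ (N : Subgroup (Elem xx)) (_ : N.Normal), Finite (Elem xx ⧸ N) →
      Group.IsSolvable (Elem xx ⧸ N) → N = ⊤ := by
    intro N _ _ _
    exact quotient_trivial Rg_div N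
  refine ⟨Elem xx, inferInstance, ?_, ?_, ?_, hnil, ?_, htriv⟩
  · have h := countable_Rg
    have h2 : Countable (Matrix (Fin 3) (Fin 3) Rg) :=
      inferInstanceAs (Countable (Fin 3 → Fin 3 → Rg))
    have h3 : Countable (GL3 Rg) := Function.Injective.countable (f := Units.val)
      Units.val_injective
    infer_instance
  · intro g hg
    exact residually_finite Rg_fin g hg
  · intro g hg
    obtain ⟨N, hN, h1, h2⟩ := hnil g hg
    exact ⟨N, hN, h1, inferInstance⟩
  · intro h
    have h01 : (0 : Fin 3) ≠ 1 := by decide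
    let g : Elem xx := ⟨el h01 (xx * 1), mem_Elem h01 1⟩
    have hx : xx ≠ 0 := by
      intro h0
      have h1 : Function.Injective (algebraMap (Polynomial ℤ) Rg) := IsLocalization.injective Rg S_le
      have h2 : (Polynomial.X : Polynomial ℤ) = 0 := h1 (by rw [map_zero]; exact h0)
      exact Polynomial.X_ne_zero h2
    have hg : g ≠ 1 := by
      intro h1
      have h2 := congrArg (fun a : Elem xx => (((a : GL3 Rg) : Matrix (Fin 3) (Fin 3) Rg) 0 1)) h1
      simp only [g, el_val, Matrix.add_apply, Matrix.single_apply_same] at h2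
      apply hx
      simpa using h2
    obtain ⟨N, hN, h1, h2, h3⟩ := h g hg
    rw [htriv N hN h2 h3] at h1
    exact h1 (Subgroup.mem_top _)

end Pool.Agent.Results.MP_92b5af_al.NoFiniteSolubleQuotients
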